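import Pool.Agent.E8helper30.RG.Stm3

set_option autoImplicit false

/-!
# Piece BALL of project RG3
-/

namespace Pool.Agent.E8helper91.RG

open Pool.Agent.E8helper30.RG Finset

open Classical in
lemma ball_step {n : ℕ} (D g : ℕ) (G : SimpleGraph (Fin n)) (v : Fin n)
    (hD : ∀ u, {w | G.Adj u w}.ncard ≤ D) :
    {u : Fin n | ∃ p : G.Walk v u, p.length + 1 ≤ g + 1}.ncard ≤
      1 + D * {u : Fin n | ∃ p : G.Walk v u, p.length + 1 ≤ g}.ncard := by
  set B : Finset (Fin n) := univ.filter (fun u => ∃ p : G.Walk v u, p.length + 1 ≤ g) with hB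
  have h1 : {u : Fin n | ∃ p : G.Walk v u, p.length + 1 ≤ g}.ncard = B.card := by
    rw [← Set.ncard_coe_finset, hB]
    congr 1
    ext u
    simp
  have h2 : {u : Fin n | ∃ p : G.Walk v u, p.length + 1 ≤ g + 1} ⊆
      ((insert v (B.biUnion (fun u => univ.filter (fun w => G.Adj u w))) : Finset (Fin n)) :
        Set (Fin n)) := by
    rintro u ⟨p, hp⟩
    rw [Finset.mem_coe, mem_insert]
    have hp' : p.reverse.length = p.length := p.length_reverse
    cases hq : p.reverse with
    | nil => left; rfl
    | cons h q =>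
      right
      rw [hq, SimpleGraph.Walk.length_cons] at hp'
      rw [mem_biUnion]
      refine ⟨_, ?_, mem_filter.2 ⟨mem_univ _, h.symm⟩⟩
      rw [hB, mem_filter]
      refine ⟨mem_univ _, q.reverse, ?_⟩
      rw [SimpleGraph.Walk.length_reverse]
      omega
  have h3 : (B.biUnion (fun u => univ.filter (fun w => G.Adj u w))).card ≤ B.card * D := by
    refine card_biUnion_le_card_mul _ _ _ (fun u _ => ?_)
    have h4 := hD u
    rw [← Set.ncard_coe_finset] at *
    refine le_trans (le_of_eq ?_) h4
    congr 1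
    ext w
    simp
  calc {u : Fin n | ∃ p : G.Walk v u, p.length + 1 ≤ g + 1}.ncard
      ≤ (((insert v (B.biUnion (fun u => univ.filter (fun w => G.Adj u w))) : Finset (Fin n)) :
        Set (Fin n))).ncard := Set.ncard_le_ncard h2 (Finset.finite_toSet _)
    _ = (insert v (B.biUnion (fun u => univ.filter (fun w => G.Adj u w)))).card :=
        Set.ncard_coe_finset _
    _ ≤ (B.biUnion (fun u => univ.filter (fun w => G.Adj u w))).card + 1 := card_insert_le _ _
    _ ≤ 1 + D * B.card := by
        have := h3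
        rw [mul_comm D]
        omega
    _ = _ := by rw [h1]

theorem t_BALL : S_BALL := by
  intro n D g G v h2 hD
  have key : ∀ g : ℕ, (D - 1) * {u : Fin n | ∃ p : G.Walk v u, p.length + 1 ≤ g}.ncard + 1 ≤
      D ^ g := by
    intro g
    induction g with
    | zero =>
      have : {u : Fin n | ∃ p : G.Walk v u, p.length + 1 ≤ 0} = ∅ := by
        ext u
        simp
      rw [this]
      simp
    | succ g ih =>
      have h3 := ball_step D g G v hD
      obtain ⟨E, rfl⟩ : ∃ E, D = E + 1 := ⟨D - 1, by omega⟩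
      simp only [Nat.add_sub_cancel] at ih ⊢
      set b := {u : Fin n | ∃ p : G.Walk v u, p.length + 1 ≤ g}.ncard
      set b' := {u : Fin n | ∃ p : G.Walk v u, p.length + 1 ≤ g + 1}.ncard
      calc E * b' + 1 ≤ E * (1 + (E + 1) * b) + 1 := by
            have := Nat.mul_le_mul_left E h3
            omega
        _ = (E + 1) * (E * b + 1) := by ring
        _ ≤ (E + 1) * (E + 1) ^ g := Nat.mul_le_mul_left _ ih
        _ = (E + 1) ^ (g + 1) := by rw [pow_succ, mul_comm]
  have h3 := key g
  have h4 : 1 * {u : Fin n | ∃ p : G.Walk v u, p.length + 1 ≤ g}.ncard ≤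
      (D - 1) * {u : Fin n | ∃ p : G.Walk v u, p.length + 1 ≤ g}.ncard :=
    Nat.mul_le_mul_right _ (by omega)
  omega

end Pool.Agent.E8helper91.RG
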